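import Mathlib

/-!
# The parity-perturbed Conway–Mallows sequence does not have limit density `1/(2φ)`

Around the indices `P k`, where `P (k+3) = P (k+2) + P k + O(1)`, the sequence `b` repeats one of two
fixed patterns, and `b (P (k+3) - 1) = P k + O(1)`.  A limit `ℓ` of `b n / n` has therefore to satisfy
`ℓ = (1 - ℓ)^3`, which `(√5 - 1)/4` does not.
-/

set_option autoImplicit false

open Filter Topology

namespace Pool.Agent.Results.MP_c3a542_nt.WrongDensity

/-- The parity-perturbed Conway–Mallows recursion: `b 1 = b 2 = 1` and, for every `n ≥ 3`, the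
indices `b (n-1)` and `n - b (n-1)` both lie in `{1, …, n-1}` and
`b n = b (b (n-1)) + b (n - b (n-1)) + (-1)^n`. -/
def IsB (b : ℕ → ℤ) : Prop :=
  b 1 = 1 ∧ b 2 = 1 ∧ ∀ n : ℕ, 3 ≤ n →
    (1 ≤ b (n - 1) ∧ b (n - 1) ≤ (n : ℤ) - 1) ∧
    (1 ≤ (n : ℤ) - b (n - 1) ∧ (n : ℤ) - b (n - 1) ≤ (n : ℤ) - 1) ∧
    b n = b (b (n - 1)).toNat + b ((n : ℤ) - b (n - 1)).toNat + (-1) ^ n

/-! ### The sequence is slow -/

/-- The sign `(-1)^n` for an integer `n`. -/
def sg (n : ℤ) : ℤ := if n % 2 = 0 then 1 else -1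

lemma sg_natCast (n : ℕ) : sg (n : ℤ) = (-1) ^ n := by
  unfold sg
  rcases Nat.even_or_odd n with h | h
  · rw [h.neg_one_pow, if_pos]
    obtain ⟨m, rfl⟩ := h
    push_cast
    omega
  · rw [h.neg_one_pow, if_neg]
    obtain ⟨m, rfl⟩ := h
    push_cast
    omega

/-- The recursion, only where it makes sense, for a function on the integers. -/
structure Pre (B : ℤ → ℤ) : Prop where
  one : B 1 = 1
  two : B 2 = 1
  recu : ∀ n : ℤ, 3 ≤ n → 1 ≤ B (n - 1) → B (n - 1) ≤ n - 1 →
    B n = B (B (n - 1)) + B (n - B (n - 1)) + sg n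

/-- The basic properties of the sequence. -/
structure Slow (B : ℤ → ℤ) : Prop where
  lo : ∀ n : ℤ, 1 ≤ n → 1 ≤ B n
  hi : ∀ n : ℤ, 1 ≤ n → B n ≤ n
  odd : ∀ n : ℤ, 1 ≤ n → B n % 2 = 1
  step : ∀ n : ℤ, 3 ≤ n → B n = B (n - 2) ∨ B n = B (n - 2) + 2
  recu : ∀ n : ℤ, 3 ≤ n → B n = B (B (n - 1)) + B (n - B (n - 1)) + sg n

lemma Pre.slow {B : ℤ → ℤ} (h : Pre B) : Slow B := by
  have key : ∀ N : ℕ, ∀ n : ℤ, 1 ≤ n → n ≤ N →
      1 ≤ B n ∧ B n ≤ n ∧ B n % 2 = 1 ∧ (3 ≤ n → B n = B (n - 2) ∨ B n = B (n - 2) + 2) := by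
    intro N
    induction N with
    | zero =>
      intro n h1 h2
      simp only [Nat.cast_zero] at h2
      omega
    | succ N ih =>
      intro n h1 h2
      push_cast at h2
      rcases lt_or_ge n ((N : ℤ) + 1) with hlt | hge
      · exact ih n h1 (by omega)
      have hn : n = (N : ℤ) + 1 := by omega
      rcases lt_or_ge n 2 with h3 | h3
      · have : n = 1 := by omega
        rw [this, h.one]
        omega
      rcases lt_or_ge n 3 with h4 | h4
      · have : n = 2 := by omega
        rw [this, h.two]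
        omega
      obtain ⟨a1, a2, a3, a4⟩ := ih (n - 1) (by omega) (by omega)
      have hr := h.recu n h4 a1 a2
      have hB1 := h.one
      have hB2 := h.two
      -- parity
      obtain ⟨c1, c2, c3, c4⟩ := ih (B (n - 1)) a1 (by omega)
      obtain ⟨d1, d2, d3, d4⟩ := ih (n - B (n - 1)) (by omega) (by omega)
      have hpar : B n % 2 = 1 := by
        rw [hr]
        unfold sg
        split_ifs <;> omega
      have hstep : B n = B (n - 2) ∨ B n = B (n - 2) + 2 := by
        rcases eq_or_lt_of_le h4 with h5 | h5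
        · subst h5
          have e1 : (3 : ℤ) - 1 = 2 := by norm_num
          rw [e1, hB2] at hr
          have e2 : (3 : ℤ) - 1 = 2 := by norm_num
          rw [e2, hB1, hB2] at hr
          have e3 : sg 3 = -1 := by decide
          have e4 : (3 : ℤ) - 2 = 1 := by norm_num
          rw [e4, hB1]
          left
          omega
        · rcases eq_or_lt_of_le (show (4 : ℤ) ≤ n by omega) with h6 | h6
          · subst h6
            have hr3 := h.recu 3 (by norm_num) (by norm_num; rw [hB2]) (by norm_num; rw [hB2]; norm_num)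
            have e1 : (3 : ℤ) - 1 = 2 := by norm_num
            rw [e1, hB2] at hr3
            rw [e1, hB1, hB2] at hr3
            have e3 : sg 3 = -1 := by decide
            have hB3 : B 3 = 1 := by omega
            have e5 : (4 : ℤ) - 1 = 3 := by norm_num
            rw [e5, hB3] at hr
            rw [e5, hB1, hB3] at hr
            have e6 : sg 4 = 1 := by decide
            have e7 : (4 : ℤ) - 2 = 2 := by norm_num
            rw [e7, hB2]
            right
            omega
          · -- the main case `n ≥ 5`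
            obtain ⟨f1, f2, f3, -⟩ := ih (n - 3) (by omega) (by omega)
            obtain ⟨g1, g2, g3, -⟩ := ih (n - 2) (by omega) (by omega)
            have e1 : n - 2 - 1 = n - 3 := by ring
            have hr2 := h.recu (n - 2) (by omega) (by rw [e1]; exact f1) (by rw [e1]; omega)
            rw [e1] at hr2
            have hs : sg (n - 2) = sg n := by
              unfold sg
              have : (n - 2) % 2 = n % 2 := by omega
              rw [this]
            rw [hs] at hr2
            have e3 : n - 1 - 2 = n - 3 := by ring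
            have a4' := a4 (by omega)
            rw [e3] at a4'
            rcases a4' with hx | hx
            · -- `x = y`
              have d4' := d4 (by omega)
              have e2 : n - B (n - 1) - 2 = n - 2 - B (n - 3) := by rw [hx]; ring
              rw [e2] at d4'
              rw [hr, hr2, hx]
              rw [hx] at d4'
              omega
            · have c4' := c4 (by omega)
              have e2 : B (n - 1) - 2 = B (n - 3) := by rw [hx]; ring
              rw [e2] at c4'
              have e4 : n - B (n - 1) = n - 2 - B (n - 3) := by rw [hx]; ring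
              rw [hr, hr2, e4]
              omega
      refine ⟨?_, ?_, hpar, fun _ => hstep⟩
      · obtain ⟨g1, g2, g3, -⟩ := ih (n - 2) (by omega) (by omega)
        omega
      · obtain ⟨g1, g2, g3, -⟩ := ih (n - 2) (by omega) (by omega)
        omega
  have key' : ∀ n : ℤ, 1 ≤ n →
      1 ≤ B n ∧ B n ≤ n ∧ B n % 2 = 1 ∧ (3 ≤ n → B n = B (n - 2) ∨ B n = B (n - 2) + 2) :=
    fun n hn => key n.toNat n hn (by omega)
  refine ⟨fun n hn => (key' n hn).1, fun n hn => (key' n hn).2.1, fun n hn => (key' n hn).2.2.1,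
    fun n hn => (key' n (by omega)).2.2.2 hn, fun n hn => ?_⟩
  obtain ⟨h1, h2, -⟩ := key' (n - 1) (by omega)
  exact h.recu n hn h1 h2

/-- `x ↦ B x + B (n - x)` is `1`-Lipschitz on each parity class. -/
lemma Slow.lip {B : ℤ → ℤ} (h : Slow B) (n x y : ℤ) (hx : 1 ≤ x) (hxy : x ≤ y)
    (hy : y ≤ n - 1) (hp : (y - x) % 2 = 0) :
    |(B y + B (n - y)) - (B x + B (n - x))| ≤ y - x := by
  have key : ∀ j : ℕ, x + 2 * j ≤ n - 1 →
      |(B (x + 2 * j) + B (n - (x + 2 * j))) - (B x + B (n - x))| ≤ 2 * j := by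
    intro j
    induction j with
    | zero => intro _; simp
    | succ j ih =>
      intro hj
      push_cast at hj
      have h1 := ih (by omega)
      have h2 := h.step (x + 2 * j + 2) (by omega)
      have h3 := h.step (n - (x + 2 * j)) (by omega)
      have e1 : x + 2 * (j : ℤ) + 2 - 2 = x + 2 * j := by ring
      have e2 : n - (x + 2 * (j : ℤ)) - 2 = n - (x + 2 * j + 2) := by ring
      rw [e1] at h2
      rw [e2] at h3
      have e3 : x + 2 * ((j + 1 : ℕ) : ℤ) = x + 2 * j + 2 := by push_cast; ring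
      rw [e3]
      rw [abs_le] at h1 ⊢
      push_cast
      rcases h2 with h2 | h2 <;> rcases h3 with h3 | h3 <;> constructor <;> omega
  have hj : ∃ j : ℕ, y = x + 2 * j := ⟨((y - x) / 2).toNat, by omega⟩
  obtain ⟨j, rfl⟩ := hj
  have := key j hy
  linarith

/-! ### The two patterns -/

/-- The two patterns, on the offsets `-31, …, 47`; `true` is for the odd levels. -/
def tb : Bool → List ℤ
  | false => [-16, -14, -16, -12, -14, -12, -12, -10, -12, -10, -10, -10, -10, -10, -8, -10, -8,
      -8, -8, -6, -6, -4, -4, -2, -4, -2, -2, -2, -2, 0, 0, 2, 0, 2, 0, 2, 0, 4, 0, 4, 0, 4, 0, 4,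
      0, 6, 2, 6, 2, 6, 2, 6, 2, 6, 2, 6, 4, 6, 4, 6, 4, 6, 4, 6, 4, 6, 6, 8, 6, 8, 6, 8, 6, 8, 6,
      8, 6, 8, 8]
  | true => [-16, -14, -14, -12, -12, -10, -12, -10, -10, -10, -10, -8, -8, -6, -8, -6, -8, -4,
      -6, -4, -4, -2, -4, -2, -2, -2, -2, -2, -2, -2, 0, -2, 0, -2, 0, -2, 0, -2, 2, -2, 2, -2, 2,
      0, 2, 0, 2, 0, 2, 0, 2, 0, 2, 2, 2, 2, 2, 2, 2, 2, 2, 2, 2, 4, 2, 4, 4, 4, 4, 4, 4, 4, 4, 4,
      4, 4, 4, 6, 4]

/-- The pattern at offset `i`. -/
def f (s : Bool) (i : ℤ) : ℤ := (tb s).getD (i + 31).toNat 0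

/-- The offset of `b (P - 1)` from the level three steps back. -/
def w : Bool → ℤ
  | false => -7
  | true => 3

/-- The correction in the recursion of the levels. -/
def ep : Bool → ℤ
  | false => -14
  | true => 8

/-- The constant in the recursion of the patterns. -/
def cc : Bool → ℤ
  | false => 5
  | true => -3

/-- One step of the recursion, in offsets. -/
def stp (s : Bool) (i a : ℤ) : ℤ :=
  cc s + f (!s) (w s + a) + f (!s) (ep s + i - w s - a) + sg i

/-- Both offsets looked up by `stp` lie in the window. -/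
def ok (s : Bool) (i a : ℤ) : Prop :=
  (-29 ≤ w s + a ∧ w s + a ≤ 47) ∧ (-29 ≤ ep s + i - w s - a ∧ ep s + i - w s - a ≤ 47)

instance (s : Bool) (i a : ℤ) : Decidable (ok s i a) := by unfold ok; infer_instance

lemma check_step : ∀ s : Bool, ∀ j : ℕ, j < 78 →
    ok s ((j : ℤ) - 30) (f s ((j : ℤ) - 31)) ∧
      stp s ((j : ℤ) - 30) (f s ((j : ℤ) - 31)) = f s ((j : ℤ) - 30) := by
  decide +kernel

lemma check_far : ∀ s : Bool,
    (ok s (-30) (f s (-31) + 6) ∧ |stp s (-30) (f s (-31) + 6) - f s (-30)| ≤ 2) ∧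
    (ok s (-30) (f s (-31) - 6) ∧ |stp s (-30) (f s (-31) - 6) - f s (-30)| ≤ 2) := by
  decide +kernel

lemma check_near : ∀ s : Bool, ∀ j : ℕ, j < 5 →
    ok s (-30) (f s (-31) + (2 * (j : ℤ) - 4)) ∧
    ok s (-29) (stp s (-30) (f s (-31) + (2 * (j : ℤ) - 4))) ∧
    stp s (-29) (stp s (-30) (f s (-31) + (2 * (j : ℤ) - 4))) = f s (-29) := by
  decide +kernel

lemma check_even : ∀ s : Bool, f s (-31) % 2 = 0 ∧ f s (-30) % 2 = 0 ∧ w s % 2 = 1 ∧
    (f s (-29) = f s (-31) ∨ f s (-29) = f s (-31) + 2) ∧ f s (-1) = 0 ∧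
    (-20 ≤ f s (-31) ∧ f s (-31) ≤ 0) ∧ (-20 ≤ f s (-30) ∧ f s (-30) ≤ 0) ∧
    (-20 ≤ w s ∧ w s ≤ 20) ∧ (-20 ≤ ep s ∧ ep s ≤ 20) := by
  decide +kernel

/-- The pattern at one level follows from the patterns one and three levels before. -/
lemma Slow.window {B : ℤ → ℤ} (h : Slow B) (s : Bool) (P P1 P3 U1 U3 : ℤ)
    (hP : P = P3 + P1 + ep s) (hU : U1 + U3 = P1 + w s + cc s) (hP1 : P1 % 2 = 0)
    (hPe : P % 2 = 0) (h1 : 400 ≤ P1) (h3 : 400 ≤ P3)
    (W1 : ∀ i : ℤ, -29 ≤ i → i ≤ 47 → B (P1 + i) = U1 + f (!s) i)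
    (W3 : ∀ i : ℤ, -29 ≤ i → i ≤ 47 → B (P3 + i) = U3 + f (!s) i) :
    ∀ i : ℤ, -29 ≤ i → i ≤ 47 → B (P + i) = P1 + w s + f s i := by
  obtain ⟨ce1, ce2, ce3, ce4, -, ce5, ce6, ce7, ce8⟩ := check_even s
  have hsg : ∀ i : ℤ, sg (P + i) = sg i := by
    intro i
    unfold sg
    have : (P + i) % 2 = i % 2 := by omega
    rw [this]
  -- the sum at a candidate value
  have hsum : ∀ i a : ℤ, ok s i a →
      B (P1 + w s + a) + B (P + i - (P1 + w s + a)) + sg (P + i) = P1 + w s + stp s i a := by
    intro i a hok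
    obtain ⟨⟨o1, o2⟩, o3, o4⟩ := hok
    have e1 : P1 + w s + a = P1 + (w s + a) := by ring
    have e2 : P + i - (P1 + w s + a) = P3 + (ep s + i - w s - a) := by rw [hP]; ring
    rw [e2, e1, W1 _ o1 o2, W3 _ o3 o4, hsg]
    unfold stp
    linarith
  have hstp : ∀ i a : ℤ, ok s i a → 3 ≤ P + i → B (P + i - 1) = P1 + w s + a →
      B (P + i) = P1 + w s + stp s i a := by
    intro i a hok h3 hB
    rw [h.recu (P + i) h3, hB]
    exact hsum i a hok
  -- the candidate is consistent
  have hc : ∀ i : ℤ, -30 ≤ i → i ≤ 47 → ok s i (f s (i - 1)) ∧ stp s i (f s (i - 1)) = f s i := by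
    intro i hi1 hi2
    have := check_step s (i + 30).toNat (by omega)
    have e1 : (((i + 30).toNat : ℕ) : ℤ) - 30 = i := by omega
    have e2 : (((i + 30).toNat : ℕ) : ℤ) - 31 = i - 1 := by omega
    rw [e1, e2] at this
    exact this
  -- the value at the left end
  have hleft : B (P + (-29)) = P1 + w s + f s (-29) := by
    set x0 : ℤ := P1 + w s + f s (-31) with hx0
    set x1 : ℤ := P1 + w s + f s (-30) with hx1
    set e : ℤ := B (P + (-31)) - x0 with he
    have hb1 := h.lo (P + (-31)) (by omega)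
    have hb2 := h.hi (P + (-31)) (by omega)
    have hb3 := h.odd (P + (-31)) (by omega)
    have hee : e % 2 = 0 := by omega
    have hBe : B (P + (-31)) = x0 + e := by omega
    have r30 := h.recu (P + (-30)) (by omega)
    have r29 := h.recu (P + (-29)) (by omega)
    have q1 : P + (-30) - 1 = P + (-31) := by ring
    have q2 : P + (-29) - 1 = P + (-30) := by ring
    rw [q1] at r30
    rw [q2] at r29
    have hb4 := h.lo (P + (-30)) (by omega)
    have hb5 := h.hi (P + (-30)) (by omega)
    have hb6 := h.odd (P + (-30)) (by omega)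
    have hs29 := h.step (P + (-29)) (by omega)
    have q3 : P + (-29) - 2 = P + (-31) := by ring
    rw [q3] at hs29
    obtain ⟨cf1, cf2⟩ := check_far s
    have hc30 := hc (-30) (by norm_num) (by norm_num)
    have hc29 := hc (-29) (by norm_num) (by norm_num)
    have q4 : (-30 : ℤ) - 1 = -31 := by norm_num
    have q5 : (-29 : ℤ) - 1 = -30 := by norm_num
    rw [q4] at hc30
    rw [q5] at hc29
    -- the second step does not increase the error
    have hmono : |B (P + (-29)) - (P1 + w s + f s (-29))| ≤ |B (P + (-30)) - x1| := by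
      have hs := hsum (-29) _ hc29.1
      rw [hc29.2, ← hx1] at hs
      rcases le_total x1 (B (P + (-30))) with hle | hle
      · have hl := h.lip (P + (-29)) x1 (B (P + (-30))) (by omega) hle (by omega) (by omega)
        rw [abs_of_nonneg (show 0 ≤ B (P + (-30)) - x1 by omega)]
        rw [abs_le] at hl ⊢
        constructor <;> linarith [hl.1, hl.2]
      · have hl := h.lip (P + (-29)) (B (P + (-30))) x1 (by omega) hle (by omega) (by omega)
        rw [abs_of_nonpos (show B (P + (-30)) - x1 ≤ 0 by omega)]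
        rw [abs_le] at hl ⊢
        constructor <;> linarith [hl.1, hl.2]
    rcases lt_or_ge e 6 with hlt | hge
    · rcases lt_or_ge (-6) e with hgt | hle
      · -- the small errors die
        have hj : ∃ j : ℕ, j < 5 ∧ e = 2 * (j : ℤ) - 4 := ⟨((e + 4) / 2).toNat, by omega, by omega⟩
        obtain ⟨j, hj, hej⟩ := hj
        obtain ⟨n1, n2, n3⟩ := check_near s j hj
        have t1 := hstp (-30) _ n1 (by omega) (by rw [q1, hBe, hej, hx0]; ring)
        have t2 := hstp (-29) _ n2 (by omega) (by rw [q2]; exact t1)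
        rw [t2, n3]
      · -- large negative error
        exfalso
        obtain ⟨c1, c2⟩ := cf2
        have hs := hsum (-30) _ c1
        have q6 : P1 + w s + (f s (-31) - 6) = x0 - 6 := by rw [hx0]; ring
        rw [q6] at hs
        have hl := h.lip (P + (-30)) (x0 + e) (x0 - 6) (by omega) (by omega) (by omega) (by omega)
        rw [hBe] at r30 hs29
        have h1' : |B (P + (-30)) - x1| ≤ -e - 4 := by
          rw [abs_le] at hl c2 ⊢
          constructor <;> linarith [hl.1, hl.2, c2.1, c2.2]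
        rw [abs_le] at h1'
        have h2' : |B (P + (-29)) - (P1 + w s + f s (-29))| ≤ -e - 4 :=
          hmono.trans (abs_le.2 h1')
        rw [abs_le] at h2'
        omega
    · -- large positive error
      exfalso
      obtain ⟨c1, c2⟩ := cf1
      have hs := hsum (-30) _ c1
      have q6 : P1 + w s + (f s (-31) + 6) = x0 + 6 := by rw [hx0]; ring
      rw [q6] at hs
      have hl := h.lip (P + (-30)) (x0 + 6) (x0 + e) (by omega) (by omega) (by omega) (by omega)
      rw [hBe] at r30 hs29
      have h1' : |B (P + (-30)) - x1| ≤ e - 4 := by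
        rw [abs_le] at hl c2 ⊢
        constructor <;> linarith [hl.1, hl.2, c2.1, c2.2]
      rw [abs_le] at h1'
      have h2' : |B (P + (-29)) - (P1 + w s + f s (-29))| ≤ e - 4 :=
        hmono.trans (abs_le.2 h1')
      rw [abs_le] at h2'
      omega
  -- propagation
  have hprop : ∀ j : ℕ, (j : ℤ) ≤ 76 → B (P + (-29 + j)) = P1 + w s + f s (-29 + j) := by
    intro j
    induction j with
    | zero => intro _; simpa using hleft
    | succ j ih =>
      intro hj
      push_cast at hj
      have h1' := ih (by omega)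
      obtain ⟨c1, c2⟩ := hc (-29 + ((j + 1 : ℕ) : ℤ)) (by push_cast; omega) (by push_cast; omega)
      have e1 : -29 + ((j + 1 : ℕ) : ℤ) - 1 = -29 + j := by push_cast; ring
      rw [e1] at c1 c2
      have e2 : P + (-29 + ((j + 1 : ℕ) : ℤ)) - 1 = P + (-29 + j) := by push_cast; ring
      have := hstp _ _ c1 (by push_cast; omega) (by rw [e2]; exact h1')
      rw [this, c2]
  intro i hi1 hi2
  have := hprop (i + 29).toNat (by omega)
  have e1 : -29 + (((i + 29).toNat : ℕ) : ℤ) = i := by omega
  rw [e1] at this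
  exact this

/-! ### The first 3359 values -/

/-- The values `b 0, …, b 3359`, twelve bits each. -/
def TB : ℕ := 0x41741941741941741741741741741741741741741741741741741741741741541741541741541741541541541541541541541541541541541541541541341541341541341341341341341341341341341341341341141341141141141141141141141141141141140f41140f41140f41140f41140f41140d41140d41140d40f40d40f40d40f40d40f40d40d40d40d40d40d40d40b40d40b40b40940b4074094074094074074054054054054034054034034014013ff3ff3fd3ff3fb3ff3f93fd3f93fb3f93f93f73f93f73f93f73f93f53f73f53f73f53f53f33f33f33f33f13f33f13f13ef3ef3ed3ed3ed3eb3ed3eb3eb3eb3eb3eb3e93eb3e93e93e73e73e53e53e33e33e13e13df3e13dd3df3dd3df3dd3dd3db3db3d93d93d73d73d73d73d53d73d33d73d13d73cf3d73cd3d73cd3d53cd3d33cd3d13cd3cf3cd3cd3cb3cb3cb3c93cb3c73cb3c73c93c53c93c53c93c53c73c33c53c13c33bf3c13bf3c13bd3bf3bd3bd3bd3bb3bd3b93bd3b93bd3b73bd3b53bd3b53bb3b33bb3b33b93b33b73b33b53b13b53b13b53af3b33af3b33ad3b13ab3b13ab3b13a93b13a93af3a93ad3a93ad3a93ad3a73ab3a73a93a73a73a73a73a53a73a33a73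a33a53a33a53a33a53a33a33a13a33a13a33a13a339f3a139f3a139f39f39d39d39b39b39939939939939739939739739739539739339739339739339539339339339339339139339139339139139139138f39138f38f38f38f38f38f38f38d38f38d38d38d38d38d38b38d38b38b38938b38738b38538938538738538738538538538538338538338338138137f38137f38137d38137d38137b38137937f37937f37737f37737d37537d37337d37337b37337937337737137736f37536f37336f37336d37136d36f36d36d36d36d36b36d36b36b36b36936b36936936936736936536936336936336736136736136736136736136736136736136735f36735d36735d36535d36335b36135b35f35b35d35935b35935b35735935735935735735735535735335735335735335735335735335735335735335735335735335535335335335135334f35334f35334d35334d35334d35334d35334b35334b35334b35334b35334b35334935334735334535334535134534f34534f34534f34534f34534f34534f34534d34534b34534934534734534534334334134133f34133f34133f34133d33f33d33d33b33b33b33933b33933b33933b33933b33933b33933b33933b33933933933733933533933533733533733533733533533533533333533333333333333333333333133332f33332f33332d33332d3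3332d33332d33132d32f32d32d32d32b32d32b32b32932932732932732932732932732932532732532732532732532532532532332532332532332532332332132332132332132331f32131f32131f31f31d31d31d31d31b31d31b31b31931931731731731531731331731131731131731131731131531131531131531131531131531131531131331131331131331131331131131131131130f31130d31130b31130931130930f30930f30930f30930f30930f30930f30930d30930d30930d30930d30930b3093093073073073053073053073053053053053053033053033053013053013053013052ff3052ff3052fd3052fd3032fd3012fb3012f93012f73012f73012f73012f73012f53012f52ff2f52ff2f52fd2f52fd2f52fd2f52fd2f52fd2f52fd2f32fb2f32fb2f32fb2f12fb2ef2fb2ef2f92ef2f92ed2f92ed2f92ed2f92ed2f72eb2f72e92f72e92f72e92f72e92f72e92f72e92f72e92f52e92f52e92f52e92f52e92f52e92f52e92f52e92f32e92f32e92f32e92f12e92ef2e92ef2e92ef2e92ef2e72ef2e72ef2e72ef2e72ef2e72ef2e72ef2e52ef2e52ef2e52ef2e52ef2e32ef2e32ef2e12ef2e12ef2e12ed2e12ed2df2eb2df2eb2df2e92df2e92df2e92df2e92df2e72df2e72df2e72df2e72df2e72df2e72df2e72df2e72df2e72df2e72df2e52df2e32df2e32dd2e32dd2e32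dd2e12dd2df2dd2df2dd2dd2dd2dd2dd2dd2db2dd2db2dd2db2db2db2d92db2d92db2d92db2d92db2d92d92d92d92d92d92d92d92d92d72d92d72d92d72d92d72d92d72d92d72d72d72d72d52d72d52d52d52d32d52d32d32d32d32d32d32d32d32d32d12d32d12d32d12d32d12d32d12d12cf2cf2cf2cf2cf2cf2cf2cf2cd2cf2cd2cf2cd2cf2cd2cf2cd2cf2cd2cf2cd2cf2cd2cd2cd2cd2cd2cd2cb2cd2cb2cd2cb2cd2cb2cd2cb2cd2cb2cd2cb2cb2cb2cb2c92cb2c92cb2c92cb2c92cb2c92cb2c92c92c72c92c72c92c72c92c72c92c72c92c52c92c52c92c52c92c52c92c52c92c32c72c32c72c32c72c32c72c32c52c32c52c32c52c32c32c12c12c12c12bf2c12bf2bf2bd2bd2bb2bb2bb2b92bb2b92b92b92b92b92b72b92b72b72b52b72b32b52b32b52b32b32b12b12b12b12af2b12af2af2ad2ad2ab2ab2a92a92a72a72a52a72a32a72a12a729f2a529f2a329f2a129f29f29f29d29f29d29d29b29b29929b29729929529929529929529729329529329529129329129129128f29128f28f28d28d28d28d28d28d28d28b28d28b28b28b28b28b28928b28928928728928528928328728328528328528328328328328128328128127f28127f28127f28127d27f27d27f27d27d27b27b27927927927927727927727727727527727527527327527327527127327127126f26f26d26d26b2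6b26926926926726926726726526726326526326326326126325f26325d26325d26325d26325d26125d25f25d25d25b25b25925925925925925725925525925325925325925325925325925325925325925325725325525325325325125325125324f25324f25324f25324f25324d25324d25124d24f24d24f24d24f24b24f24924f24724f24724d24724b24724924724724724724524724524524524324524124524124524124524124524124524124524124324124123f23f23f23f23f23f23d23f23d23d23b23d23b23d23b23d23923d23723d23723d23523b23523923523723523523523323523323523323323323323323323323123323123123123123123123122f23122f22f22f22f22f22d22f22d22d22b22d22922d22722d22522b22522b22522b22522b22522b22522b22522922522922522922522922522722522722522522322322322122321f22321f22321f22321f22121f22121f22121f22121f21f21f21d21f21b21f21b21d21b21d21b21b21b21b21b21921b21921b21921921721921721921521921321921121720f21720f21520f21520f21520d21520d21520d21320d21320d21320d21120d21120d21120d21120b21120921120921120721120721120721120520f20320f20320f20320f20320f20320f20320f20320d20320d20320d20320b2032092032092032092032092032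092032092032092012092012092012092012092012092012091ff2091ff2071ff2051ff2051fd2031fd2031fb2031fb2031fb2011fb2011fb2011fb2011fb2011fb2011fb2011fb2011fb2011fb2011fb1ff1fb1fd1fb1fd1fb1fd1fb1fb1f91f91f91f91f91f71f91f71f91f71f71f71f71f51f71f31f71f31f71f31f71f31f51f31f51f31f51f31f51f31f31f31f31f31f31f31f31f31f31f11f31f11f11ef1f11ed1ef1ed1ef1ed1ef1ed1ef1ed1ed1ed1ed1ed1ed1ed1ed1eb1ed1eb1ed1eb1ed1eb1eb1eb1eb1eb1eb1eb1eb1eb1eb1eb1eb1eb1eb1e91eb1e91eb1e91e91e91e91e91e91e91e91e91e91e91e91e71e91e71e71e71e71e71e71e71e71e71e71e71e51e71e51e71e51e71e51e71e51e71e31e71e31e71e31e51e31e51e31e51e31e51e31e31e31e31e31e31e31e11e31e11e11df1e11dd1df1dd1df1dd1dd1db1db1db1db1d91db1d91d91d71d71d51d51d31d31d11d31cf1d31cd1d31cb1d11cb1cf1cb1cd1cb1cb1c91cb1c91cb1c91cb1c71c91c71c91c71c71c51c51c31c31c31c31c11c31c11c11c11bf1c11bf1bf1bf1bf1bf1bd1bf1bd1bd1bb1bd1b91bd1b71bb1b71b91b71b71b51b51b31b51b11b51af1b51ad1b31ad1b11ad1af1ad1af1ad1ad1ad1ab1ad1a91ad1a91ad1a91ad1a91ab1a91a91a91a71a91a51a91a51a91a31a91a31a91a31a71a31a51a11a51a11a51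a11a319f1a119d19f19b19d19b19d19919b19919919919719919719919719919719919719719719519719519719519519519319519319519319319119118f18f18f18d18f18b18f18b18d18b18d18b18d18b18b18918b18918b18918b18718918718918718718518518518318518118518118518118518118318118318118318118318118118118118117f18117d18117b18117b17f17b17f17b17f17b17f17b17d17b17b17917917917917717917717917517917517917317917317717117716f17716d17716d17516d17516b17516b17316b17316b17316b17316b17316b17316917316717316717316517316517316517316317116317116317116316f16316d16316d16316d16316d16316d16316d16316d16316d16316d16316d16116d16116d16116b16116916116716116715f16715f16515f16515d16515d16515d16515d16515d16515d16515d16515d16515d16315d16115d16115d16115d15f15d15f15d15d15d15d15b15d15b15b15b15915b15915915915915915915915915915715915715915715915715915715715515515515515515515515515315515315515315515315315315315315315115315115315115315115315115315115315115115115114f15114f15114f15114f15114f15114f14f14d14f14d14f14d14f14d14f14d14f14b14f14b14f14b14f14b14f14b14f14914d1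4914d14914d14914d14914b14914b14914b14914914714714714714514714514514314314114113f13f13f13d13f13d13d13d13d13d13b13d13b13b13913b13713913713913713713513513313313113112f12f12d12d12d12d12b12d12912d12712d12712b12712912712712712512712512512312512312512112312112112111f12111d12111d12111d12111d11f11d11d11d11d11b11d11911d11911b11911911711711711711711711711511711511511511511511311511111510f11510f11310f11310f11310f11310f11110f11110f10f10d10d10d10b10d10b10d10b10b10b10910b1091091091091091071091071071051071031051011050ff1050ff1050fd1050fd1050fd1050fd1050fd1030fd1030fb1030f91010f90ff0f70ff0f70ff0f70ff0f70ff0f70ff0f70ff0f70ff0f70ff0f70ff0f70ff0f70fd0f70fb0f70f90f70f90f50f70f50f70f50f70f30f70f30f70f10f70f10f70f10f70f10f70f10f50f10f30f10f30f10f30f10f10f10f10f10ef0f10ef0ef0ed0ef0eb0ed0eb0ed0eb0ed0eb0ed0eb0eb0eb0eb0eb0eb0eb0eb0e90eb0e90eb0e90eb0e90e90e90e90e90e90e70e90e70e90e70e70e70e70e70e70e70e70e70e70e70e70e50e70e50e50e50e50e50e50e50e50e50e50e50e30e50e30e50e30e50e30e50e30e50e10e50e10e50e10e30e10e30e10e30e10e30e10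e10e10e10e10e10e10df0e10df0df0dd0df0db0dd0db0dd0db0db0d90d90d90d90d70d90d70d70d50d50d30d30d10d30cf0d30cd0d10cd0cf0cd0cd0cd0cb0cd0cb0cb0cb0c90cb0c90c90c70c70c50c70c50c70c50c70c30c50c30c50c30c30c10c10c10bf0c10bf0c10bf0bf0bf0bf0bf0bd0bf0bb0bf0bb0bd0bb0bb0b90bb0b90bb0b70bb0b50bb0b30bb0b10bb0b10bb0af0b90af0b70af0b70af0b70af0b70ad0b70ab0b70ab0b70ab0b70ab0b70ab0b70ab0b70ab0b50ab0b30ab0b10ab0af0ab0af0ab0af0ab0af0a90af0a90af0a70af0a70ad0a70ab0a70ab0a70ab0a70a90a70a90a70a70a50a50a50a50a50a50a50a50a30a50a30a50a30a50a30a30a30a30a30a30a10a30a10a30a10a10a10a109f0a109f0a109f0a109f0a109f0a109f09f09d09f09d09f09d09f09d09f09d09f09b09f09b09f09b09f09b09f09b09f09909d09909d09909d09909d09909b09909b09909b09909909709709709709509709509509309309109108f09108d08f08d08d08d08b08d08b08b08b08b08b08908b08708b08708908708908708708508508508308508308308108107f08107d08107b08107b08107b08107b08107b08107908107707f07707d07707b07707907707907707907707907707907707707507507507507307507307307307307307107307107307107307107107107107107106f0710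6f07106f06f06f06f06d06f06d06d06d06d06d06d06d06d06d06d06d06b06d06b06d06b06d06b06d06b06d06906d06906d06906b06906b06906b06906b06906906906906906906906706906706706506506306506106306106306106105f05f05f05f05d05f05b05f05905f05705f05505f05505d05505b05505905505705305705305705305705305705305505305505105305105305105105105105105104f05104f05104f04f04f04f04d04f04d04d04b04d04b04d04b04d04b04d04b04d04904d04904d04904d04904d04904d04704b04704b04704b04704b04704904704904704904704704504504504504304504304304104103f03f03d03d03d03b03d03903d03903d03903b03903903903903903703903703903703703703703503703503503503303503303503303503303503303503103503103503103303103303103303103303103103103103103103102f03102f02f02d02f02b02f02902d02902b02902b02902902902902702902702702502702302702302702302702302702302702102502102502102502102502102302102302102302102101f01f01d01d01d01d01b01d01b01b01b01901b01701b01701b01701901701901701901701901701701701701701701701501701501501301501101500f01300f01300f01300f01300f01100f01100f01100f00f00d00d00d00b00d00b00d00b00b00b00b00b00b00b00900b00700b007009007009007009007007005005005005005005003005003005003003003003001003001001001000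

/-- The `n`-th entry of the table. -/
def T (n : ℕ) : ℕ := (TB >>> (12 * n)) % 4096

/-- The recursion at `n`, checked in the table. -/
def good (n : ℕ) : Bool :=
  Nat.ble n 2 || (Nat.ble 1 (T (n - 1)) && Nat.ble (T (n - 1)) (n - 1) &&
    Nat.beq (T n + n % 2) (T (T (n - 1)) + T (n - T (n - 1)) + (1 - n % 2)))

lemma check_table : ∀ i < 60, ∀ j < 56, good (56 * i + j) = true := by
  decide +kernel

lemma check_one : T 1 = 1 ∧ T 2 = 1 := by decide +kernel

lemma check_base : ∀ j < 77,
    ((T (1526 + j - 29) : ℤ) = 482 + w true + f true ((j : ℤ) - 29)) ∧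
    ((T (2226 + j - 29) : ℤ) = 714 + w false + f false ((j : ℤ) - 29)) ∧
    ((T (3270 + j - 29) : ℤ) = 1036 + w true + f true ((j : ℤ) - 29)) := by
  decide +kernel

lemma table_eq {B : ℤ → ℤ} (hp : Pre B) (h : Slow B) :
    ∀ n : ℕ, 1 ≤ n → n < 3360 → B n = T n := by
  intro n
  induction n using Nat.strong_induction_on with
  | _ n ih =>
    intro h1 h2
    obtain ⟨t1, t2⟩ := check_one
    rcases lt_or_ge n 3 with h3 | h3
    · interval_cases n
      · rw [t1]; exact_mod_cast hp.one
      · rw [t2]; exact_mod_cast hp.two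
    have hg := check_table (n / 56) (by omega) (n % 56) (Nat.mod_lt _ (by norm_num))
    rw [Nat.div_add_mod] at hg
    unfold good at hg
    have hb : Nat.ble n 2 = false := by
      rw [Bool.eq_false_iff]
      intro hh
      have := Nat.le_of_ble_eq_true hh
      omega
    rw [hb, Bool.false_or, Bool.and_eq_true, Bool.and_eq_true] at hg
    obtain ⟨⟨g1, g2⟩, g3⟩ := hg
    have g1' := Nat.le_of_ble_eq_true g1
    have g2' := Nat.le_of_ble_eq_true g2
    have g3' := Nat.eq_of_beq_eq_true g3
    have i1 := ih (n - 1) (by omega) (by omega) (by omega)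
    have i2 := ih (T (n - 1)) (by omega) g1' (by omega)
    have i3 := ih (n - T (n - 1)) (by omega) (by omega) (by omega)
    have hr := h.recu (n : ℤ) (by omega)
    have e1 : ((n - 1 : ℕ) : ℤ) = (n : ℤ) - 1 := by omega
    have e2 : ((n - T (n - 1) : ℕ) : ℤ) = (n : ℤ) - (T (n - 1) : ℤ) := by omega
    rw [e1] at i1
    rw [e2] at i3
    rw [i1, i2, i3] at hr
    rw [hr]
    unfold sg
    split_ifs with hpar <;> omega

/-! ### The levels -/

/-- The levels. -/
def P : ℕ → ℤ
  | 0 => 482
  | 1 => 714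
  | 2 => 1036
  | (k + 3) => P (k + 2) + P k + ep (k % 2 == 0)

lemma P_succ (k : ℕ) : P (k + 3) = P (k + 2) + P k + ep (k % 2 == 0) := rfl

lemma P_facts : ∀ k : ℕ, (P k % 2 = 0 ∧ 400 + (k : ℤ) ≤ P k) ∧
    (P (k + 1) % 2 = 0 ∧ 400 + ((k + 1 : ℕ) : ℤ) ≤ P (k + 1)) ∧
    (P (k + 2) % 2 = 0 ∧ 400 + ((k + 2 : ℕ) : ℤ) ≤ P (k + 2)) := by
  intro k
  induction k with
  | zero => decide
  | succ k ih =>
    obtain ⟨h0, h1, h2⟩ := ih
    refine ⟨h1, h2, ?_⟩
    have e1 : k + 1 + 2 = k + 3 := by ring
    rw [e1, P_succ]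
    have hep : ep (k % 2 == 0) % 2 = 0 ∧ -20 ≤ ep (k % 2 == 0) := by
      cases (k % 2 == 0) <;> decide
    push_cast at *
    omega

/-- The pattern occurs at every level. -/
lemma all_windows {B : ℤ → ℤ} (hp : Pre B) (h : Slow B) (k : ℕ) :
    ∀ i : ℤ, -29 ≤ i → i ≤ 47 →
      B (P (k + 3) + i) = P k + w (k % 2 == 0) + f (k % 2 == 0) i := by
  have base : ∀ j : ℕ, j < 77 →
      (B (1526 + ((j : ℤ) - 29)) = 482 + w true + f true ((j : ℤ) - 29)) ∧
      (B (2226 + ((j : ℤ) - 29)) = 714 + w false + f false ((j : ℤ) - 29)) ∧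
      (B (3270 + ((j : ℤ) - 29)) = 1036 + w true + f true ((j : ℤ) - 29)) := by
    intro j hj
    obtain ⟨c1, c2, c3⟩ := check_base j hj
    have t1 := table_eq hp h (1526 + j - 29) (by omega) (by omega)
    have t2 := table_eq hp h (2226 + j - 29) (by omega) (by omega)
    have t3 := table_eq hp h (3270 + j - 29) (by omega) (by omega)
    have e1 : ((1526 + j - 29 : ℕ) : ℤ) = 1526 + ((j : ℤ) - 29) := by omega
    have e2 : ((2226 + j - 29 : ℕ) : ℤ) = 2226 + ((j : ℤ) - 29) := by omega
    have e3 : ((3270 + j - 29 : ℕ) : ℤ) = 3270 + ((j : ℤ) - 29) := by omega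
    rw [e1] at t1
    rw [e2] at t2
    rw [e3] at t3
    exact ⟨t1.trans c1, t2.trans c2, t3.trans c3⟩
  have p3 : P 3 = 1526 := by decide
  have p4 : P 4 = 2226 := by decide
  have p5 : P 5 = 3270 := by decide
  have conv : ∀ i : ℤ, -29 ≤ i → i ≤ 47 → ∃ j : ℕ, j < 77 ∧ (j : ℤ) - 29 = i :=
    fun i h1 h2 => ⟨(i + 29).toNat, by omega, by omega⟩
  induction k using Nat.strong_induction_on with
  | _ k ih =>
    rcases lt_or_ge k 3 with hk | hk
    · intro i hi1 hi2
      obtain ⟨j, hj, rfl⟩ := conv i hi1 hi2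
      interval_cases k
      · have := (base j hj).1
        rw [← p3] at this
        exact this
      · have := (base j hj).2.1
        rw [← p4] at this
        exact this
      · have := (base j hj).2.2
        rw [← p5] at this
        exact this
    · obtain ⟨m, rfl⟩ : ∃ m, k = m + 3 := ⟨k - 3, by omega⟩
      have i1 := ih m (by omega)
      have i3 := ih (m + 2) (by omega)
      have b1 : ((m + 3) % 2 == 0) = !(m % 2 == 0) := by
        rcases Nat.mod_two_eq_zero_or_one m with hm | hm
        · have : (m + 3) % 2 = 1 := by omega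
          rw [hm, this]; rfl
        · have : (m + 3) % 2 = 0 := by omega
          rw [hm, this]; rfl
      have b2 : ((m + 2) % 2 == 0) = (m % 2 == 0) := by
        have : (m + 2) % 2 = m % 2 := by omega
        rw [this]
      rw [b2] at i3
      rw [b1]
      obtain ⟨f0, -, f2⟩ := P_facts m
      obtain ⟨g0, -, g2⟩ := P_facts (m + 3)
      obtain ⟨-, -, k2⟩ := P_facts (m + 4)
      have eP : P (m + 3 + 3) = P (m + 5) + P (m + 3) + ep (!(m % 2 == 0)) := by
        have := P_succ (m + 3)
        rw [b1] at this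
        exact this
      have eQ : P (m + 3) = P (m + 2) + P m + ep (m % 2 == 0) := P_succ m
      apply h.window (!(m % 2 == 0)) (P (m + 3 + 3)) (P (m + 3)) (P (m + 5))
        (P m + w (m % 2 == 0)) (P (m + 2) + w (m % 2 == 0)) eP
      · rw [eQ]
        cases (m % 2 == 0) <;> simp [w, ep, cc] <;> ring
      · exact g0.1
      · exact k2.1
      · have := g0.2
        push_cast at this
        omega
      · have e5 : P (m + 3 + 2) = P (m + 5) := rfl
        have := g2.2
        rw [e5] at this
        push_cast at this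
        omega
      · intro i hi1 hi2
        rw [Bool.not_not]
        exact i1 i hi1 hi2
      · intro i hi1 hi2
        rw [Bool.not_not]
        exact i3 i hi1 hi2

/-! ### Existence -/

/-- The sequence, computed by the recursion as long as the indices are legal. -/
def b0 : ℕ → ℤ
  | 0 => 0
  | 1 => 1
  | 2 => 1
  | (n + 3) =>
    if h : 1 ≤ b0 (n + 2) ∧ b0 (n + 2) ≤ (n : ℤ) + 2 then
      b0 (b0 (n + 2)).toNat + b0 ((n : ℤ) + 3 - b0 (n + 2)).toNat + (-1) ^ (n + 3)
    else 0
  decreasing_by
  all_goals omega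

lemma pre_of (b : ℕ → ℤ) (h1 : b 1 = 1) (h2 : b 2 = 1)
    (h : ∀ n : ℕ, 3 ≤ n → 1 ≤ b (n - 1) → b (n - 1) ≤ (n : ℤ) - 1 →
      b n = b (b (n - 1)).toNat + b ((n : ℤ) - b (n - 1)).toNat + (-1) ^ n) :
    Pre (fun x : ℤ => b x.toNat) := by
  refine ⟨by simpa using h1, by simpa using h2, ?_⟩
  intro n hn a1 a2
  obtain ⟨m, rfl⟩ : ∃ m : ℕ, n = m := ⟨n.toNat, by omega⟩
  have e1 : ((m : ℤ) - 1).toNat = m - 1 := by omega
  simp only [e1, Int.toNat_natCast] at a1 a2 ⊢
  rw [sg_natCast]
  exact h m (by omega) a1 a2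

lemma exists_isB : ∃ b : ℕ → ℤ, IsB b := by
  have hpre : Pre (fun x : ℤ => b0 x.toNat) := by
    apply pre_of
    · simp [b0]
    · simp [b0]
    · intro n hn a1 a2
      obtain ⟨m, rfl⟩ : ∃ m, n = m + 3 := ⟨n - 3, by omega⟩
      have e1 : m + 3 - 1 = m + 2 := by omega
      rw [e1] at a1 a2 ⊢
      push_cast at a2 ⊢
      rw [b0]
      rw [dif_pos ⟨a1, by omega⟩]
  have hs := hpre.slow
  refine ⟨b0, by simp [b0], by simp [b0], ?_⟩
  intro n hn
  have l1 := hs.lo ((n : ℤ) - 1) (by omega)
  have l2 := hs.hi ((n : ℤ) - 1) (by omega)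
  have hr := hs.recu (n : ℤ) (by omega)
  have e1 : ((n : ℤ) - 1).toNat = n - 1 := by omega
  simp only [e1, Int.toNat_natCast] at l1 l2 hr
  rw [sg_natCast] at hr
  exact ⟨⟨l1, l2⟩, ⟨by omega, by omega⟩, hr⟩

/-! ### The limit -/

lemma limit_eq (b : ℕ → ℤ) (hb : IsB b) (l : ℝ)
    (hl : Tendsto (fun n : ℕ => (b n : ℝ) / n) atTop (𝓝 l)) : l = (1 - l) ^ 3 := by
  have hpre : Pre (fun x : ℤ => b x.toNat) := by
    apply pre_of b hb.1 hb.2.1
    intro n hn _ _
    exact (hb.2.2 n hn).2.2
  have hs := hpre.slow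
  have hw := all_windows hpre hs
  have hPn : ∀ k : ℕ, 400 + (k : ℤ) ≤ P k := fun k => (P_facts k).1.2
  -- the value just below each level
  have hval : ∀ k : ℕ, b ((P (k + 3) - 1).toNat) = P k + w (k % 2 == 0) := by
    intro k
    have := hw k (-1) (by norm_num) (by norm_num)
    rw [(check_even _).2.2.2.2.1, add_zero] at this
    exact this
  have hPtop : Tendsto (fun k : ℕ => (P k : ℝ)) atTop atTop := by
    apply tendsto_atTop_mono (f := fun k : ℕ => (k : ℝ))
    · intro k
      have := hPn k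
      have h2 : (k : ℤ) ≤ P k := by omega
      exact_mod_cast h2
    · exact tendsto_natCast_atTop_atTop
  have hPtop3 : Tendsto (fun k : ℕ => (P (k + 3) : ℝ)) atTop atTop :=
    hPtop.comp (tendsto_add_atTop_nat 3)
  have hbdd : ∀ g : ℕ → ℝ, (∀ k, |g k| ≤ 20) →
      Tendsto (fun k : ℕ => g k / (P (k + 3) : ℝ)) atTop (𝓝 0) := by
    intro g hg
    have h0 : Tendsto (fun k : ℕ => 20 / (P (k + 3) : ℝ)) atTop (𝓝 0) :=
      hPtop3.const_div_atTop 20
    apply squeeze_zero_norm (a := fun k : ℕ => 20 / (P (k + 3) : ℝ)) _ h0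
    intro k
    have hpos : (0 : ℝ) < P (k + 3) := by
      have := hPn (k + 3)
      have h2 : (0 : ℤ) < P (k + 3) := by omega
      exact_mod_cast h2
    rw [Real.norm_eq_abs, abs_div, abs_of_pos hpos]
    exact div_le_div_of_nonneg_right (hg k) hpos.le
  have hpos : ∀ k : ℕ, (0 : ℝ) < P k := by
    intro k
    have := hPn k
    have h2 : (0 : ℤ) < P k := by omega
    exact_mod_cast h2
  -- the ratio of the levels at distance three
  have hr3 : Tendsto (fun k : ℕ => (P k : ℝ) / (P (k + 3) : ℝ)) atTop (𝓝 l) := by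
    have hsub : Tendsto (fun k : ℕ => (P (k + 3) - 1).toNat) atTop atTop := by
      apply tendsto_atTop_mono (f := fun k : ℕ => k)
      · intro k
        have := hPn (k + 3)
        push_cast at this
        omega
      · exact tendsto_id
    have h1 := hl.comp hsub
    have h2 : Tendsto (fun k : ℕ => ((P (k + 3) : ℝ) - 1) / (P (k + 3) : ℝ)) atTop (𝓝 1) := by
      have h3 := hbdd (fun _ => 1) (fun _ => by norm_num)
      have h4 : Tendsto (fun k : ℕ => (1 : ℝ) - 1 / (P (k + 3) : ℝ)) atTop (𝓝 (1 - 0)) :=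
        tendsto_const_nhds.sub h3
      rw [sub_zero] at h4
      apply h4.congr
      intro k
      have := (hpos (k + 3)).ne'
      field_simp
    have h5 := (h1.mul h2).sub (hbdd (fun k => (w (k % 2 == 0) : ℝ)) (fun k => by
      cases (k % 2 == 0) <;> simp only [w] <;> norm_num))
    rw [mul_one, sub_zero] at h5
    apply h5.congr
    intro k
    have hp3 := (hpos (k + 3)).ne'
    have hn1 : (((P (k + 3) - 1).toNat : ℕ) : ℝ) = (P (k + 3) : ℝ) - 1 := by
      have h6 : (((P (k + 3) - 1).toNat : ℕ) : ℤ) = P (k + 3) - 1 := by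
        have := hPn (k + 3)
        push_cast at this
        omega
      have h7 : ((((P (k + 3) - 1).toNat : ℕ) : ℤ) : ℝ) = ((P (k + 3) - 1 : ℤ) : ℝ) := by rw [h6]
      push_cast at h7
      exact h7
    have hne : (P (k + 3) : ℝ) - 1 ≠ 0 := by
      have := hPn (k + 3)
      have h2 : (1 : ℤ) < P (k + 3) := by push_cast at this; omega
      have h3 : (1 : ℝ) < P (k + 3) := by exact_mod_cast h2
      linarith
    simp only [Function.comp]
    rw [hval k, hn1]
    push_cast
    field_simp
    ring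
  -- the ratio of consecutive levels
  have hr1 : Tendsto (fun k : ℕ => (P (k + 2) : ℝ) / (P (k + 3) : ℝ)) atTop (𝓝 (1 - l)) := by
    have h1 := (tendsto_const_nhds (x := (1 : ℝ)) (f := (atTop : Filter ℕ))).sub hr3
    have h2 := h1.sub (hbdd (fun k => (ep (k % 2 == 0) : ℝ)) (fun k => by
      cases (k % 2 == 0) <;> simp only [ep] <;> norm_num))
    rw [sub_zero] at h2
    apply h2.congr
    intro k
    have hp3 := (hpos (k + 3)).ne'
    have hPk : (P (k + 3) : ℝ) = P (k + 2) + P k + (ep (k % 2 == 0) : ℝ) := by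
      rw [P_succ]
      push_cast
      ring
    rw [eq_div_iff hp3, sub_mul, sub_mul, div_mul_cancel₀ _ hp3, div_mul_cancel₀ _ hp3]
    linarith
  have hr1' : Tendsto (fun k : ℕ => (P k : ℝ) / (P (k + 1) : ℝ)) atTop (𝓝 (1 - l)) := by
    have := (tendsto_add_atTop_iff_nat (f := fun k : ℕ => (P k : ℝ) / (P (k + 1) : ℝ)) 2).1 hr1
    exact this
  have hr1a := hr1'.comp (tendsto_add_atTop_nat 1)
  have hr1b := hr1'.comp (tendsto_add_atTop_nat 2)
  have hprod := (hr1'.mul hr1a).mul hr1b
  have hcube : Tendsto (fun k : ℕ => (P k : ℝ) / (P (k + 3) : ℝ)) atTop (𝓝 ((1 - l) ^ 3)) := by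
    have e : (1 - l) * (1 - l) * (1 - l) = (1 - l) ^ 3 := by ring
    rw [e] at hprod
    apply hprod.congr
    intro k
    have q1 := (hpos (k + 1)).ne'
    have q2 := (hpos (k + 2)).ne'
    have q3 := (hpos (k + 3)).ne'
    simp only [Function.comp]
    have e1 : k + 1 + 1 = k + 2 := by ring
    have e2 : k + 2 + 1 = k + 3 := by ring
    rw [e1, e2]
    field_simp
  exact tendsto_nhds_unique hr3 hcube

/-- The parity-perturbed Conway–Mallows sequence is defined for all `n ≥ 1`, but `b n / n` does not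
converge to `1/(2φ) = (√5 - 1)/4`: every limit `l` of `b n / n` satisfies `l = (1 - l)^3`. -/
theorem result :
    (∃ b : ℕ → ℤ, IsB b) ∧
    ∀ b : ℕ → ℤ, IsB b →
      ¬ Tendsto (fun n : ℕ => (b n : ℝ) / n) atTop (𝓝 ((Real.sqrt 5 - 1) / 4)) ∧
      ∀ l : ℝ, Tendsto (fun n : ℕ => (b n : ℝ) / n) atTop (𝓝 l) → l = (1 - l) ^ 3 := by
  refine ⟨exists_isB, fun b hb => ⟨fun hl => ?_, fun l hl => limit_eq b hb l hl⟩⟩
  have h := limit_eq b hb _ hl
  have h5 : Real.sqrt 5 ^ 2 = 5 := Real.sq_sqrt (by norm_num)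
  have h3 : Real.sqrt 5 ^ 3 = 5 * Real.sqrt 5 := by
    rw [pow_succ, h5]
  -- `64 (1 - l)^3 = (5 - √5)^3 = 200 - 80 √5` and `64 l = 16 √5 - 16`
  have h6 : (1 - (Real.sqrt 5 - 1) / 4) ^ 3 =
      (125 - 75 * Real.sqrt 5 + 15 * Real.sqrt 5 ^ 2 - Real.sqrt 5 ^ 3) / 64 := by ring
  rw [h6, h5, h3] at h
  have h7 : Real.sqrt 5 = 9 / 4 := by linarith
  rw [h7] at h5
  norm_num at h5

end Pool.Agent.Results.MP_c3a542_nt.WrongDensity
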